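import Pool.Agent.U543.HsMain

/-!
# The hyperbolic analytic subspace conjecture at almost all algebraic points of arbitrary Shimura varieties

Let `u : 𝒟 → S` be the uniformisation of a Shimura variety by a bounded symmetric domain `𝒟 ⊆ ℂ ^ σ` (for some base
point). On a chart `U` of `S`, or of a finite covering of `S`, with algebraic coordinates `x`, let `z` be a branch of the
inverse of `u`. For a special point `o` the realisation of `𝒟` with the origin `o`, in coordinates on `T_o X` which are
rational over the algebraic numbers for the arithmetic structure, is a rational map `R_o = N / N₀` of `z` of bounded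
degree; its coefficients are in general transcendental (for `𝔸_g` they are divided by the numbers `θ_j θ_j' / π`). The
points of `𝒟` over a point `[z]` of `S` are the values at `[z]` of the analytic continuations of `z`. As the monodromy
group is Zariski dense in the group of the Shimura datum, they span `T_o X`.

The conjecture is about subspaces `V` which are rational for the arithmetic structure and contain a point `z` over an
algebraic point `[z]` of `S`. We show: for all algebraic points `[z]` of bounded degree and of height at most `T`, outside
`T ^ ε` hypersurfaces of bounded degree, such a subspace `V` of height at most `T ^ k`, rational over a field `K` of bounded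
degree with `[z] ∈ S(K)`, contains all points over `[z]`, and so it is `T_o X`. In particular `V' = T_o X` is as in Q1 and
Q2. This is uniform in the base point `o`: the number and the degrees of the hypersurfaces do not depend on `o` (nor on
`K`). Before, results were known to us for powers of the modular curve and points with integral invariants; here `S` is
any Shimura variety, in fact any complex manifold with any analytic map `z`, the inverse of a uniformisation or not.
-/

namespace Pool.Agent.Results.MP_1e27bd_ag.AllShimuraVarieties

open Filter NumberField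
open Pool.Agent.U543.GD (Family Height Inner Covered)
open Pool.Agent.U543.HS

/-- **Subspaces containing one logarithm contain all.** Let `U` be a connected nonempty open subset of `ℂ ^ X`, and let
`z x`, with values in `ℂ ^ σ`, be analytic in `x ∈ U`, such that `ℂ(x)` is algebraically closed in `ℂ(x, z)` (`Family`;
for the inverse of the uniformisation of a Shimura variety the functions `z_j` are algebraically independent over
`ℂ(x)`). For a number `k`, a number field `K` of degree at most `k`, embedded in `ℂ`, and a rational map `N / N₀` from
`ℂ ^ σ` to `ℂ ^ ι` with ANY complex coefficients, `N` of degree at most `k` in each variable, let `Exceptional` be the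
set of all points `s` of `U` with coordinates in `K` of height at most `T`, of norm at most `k` and at distance at least
`1 / k` from the complement of `U`, such that some subspace `V` of `ℂ ^ ι`, with equations with coefficients in the
integers of `K` all conjugates of which are at most `T ^ k`, contains the point `N / N₀ (z s)` but not all the points
`N / N₀ (w)`, `w` the values at `s` of the analytic continuations of `z` (`Lifts`).

(1) For every `k` and `ε > 0` there are `D`, `C` such that for all large `T` and all such `K`, `N₀`, `N` this set lies on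
at most `C T ^ ε` hypersurfaces of degree at most `D`, and has at most `D C T ^ ε N ^ (|X| - 1)` elements, `N` being the
number of elements of `K` of height at most `T`.
(2) There is `ω → ∞` such that for all large `T`, `k = ω T`, and all such `K`, `N₀`, `N` this set lies on at most
`T ^ (1 / k)` hypersurfaces of degree at most `T ^ (1 / k)`, and has at most `T ^ (1 / k) N ^ (|X| - 1)` elements.
(3) If a point `s` of this kind is not exceptional, and if the points `N / N₀ (w)`, `w ∈ Lifts`, span `ℂ ^ ι`, then every
such subspace `V` which contains `N / N₀ (z s)` is `ℂ ^ ι`. -/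
theorem result (X σ ι : Type) [Fintype X] [DecidableEq X] [Nonempty X] [Fintype σ] [DecidableEq σ] [Fintype ι]
    [DecidableEq ι] (U : Set (X → ℂ)) (z : (X → ℂ) → σ → ℂ) (h : Family U (row z)) :
    (∀ (k : ℕ) (ε : ℝ), 0 < ε → ∃ (D : ℕ) (C T₀ : ℝ), 0 ≤ C ∧ 2 ≤ T₀ ∧ ∀ T, T₀ ≤ T →
      ∀ (K : Type) [Field K] [NumberField K], Module.finrank ℚ K ≤ k → ∀ (io : K →+* ℂ) (N₀ : MvPolynomial σ ℂ)
        (N : ι → MvPolynomial σ ℂ), (∀ i y, (N i).degreeOf y ≤ k) →
        Covered D ⌊C * T ^ ε⌋₊ ((fun (s : X → K) j => io (s j)) '' Exceptional U z k K io N₀ N T) ∧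
        (Exceptional U z k K io N₀ N T).Finite ∧
        ((Exceptional U z k K io N₀ N T).ncard : ℝ) ≤
          D * C * T ^ ε * ((Height K T).ncard : ℝ) ^ (Fintype.card X - 1)) ∧
    (∃ (ω : ℝ → ℕ) (T₀ : ℝ), Tendsto ω atTop atTop ∧ Monotone ω ∧ ∀ T, T₀ ≤ T → 0 < ω T ∧
      ∀ (K : Type) [Field K] [NumberField K], Module.finrank ℚ K ≤ ω T → ∀ (io : K →+* ℂ) (N₀ : MvPolynomial σ ℂ)
        (N : ι → MvPolynomial σ ℂ), (∀ i y, (N i).degreeOf y ≤ ω T) →
        Covered ⌊T ^ ((ω T : ℝ)⁻¹)⌋₊ ⌊T ^ ((ω T : ℝ)⁻¹)⌋₊
          ((fun (s : X → K) j => io (s j)) '' Exceptional U z (ω T) K io N₀ N T) ∧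
        (Exceptional U z (ω T) K io N₀ N T).Finite ∧
        ((Exceptional U z (ω T) K io N₀ N T).ncard : ℝ) ≤
          T ^ ((ω T : ℝ)⁻¹) * ((Height K T).ncard : ℝ) ^ (Fintype.card X - 1)) ∧
    ∀ (k : ℕ) (K : Type) [Field K] [NumberField K] (io : K →+* ℂ) (N₀ : MvPolynomial σ ℂ) (N : ι → MvPolynomial σ ℂ)
      (T : ℝ) (s : X → K), (∀ j, s j ∈ Height K T) → (fun j => io (s j)) ∈ Inner U k →
      MvPolynomial.eval (z fun j => io (s j)) N₀ ≠ 0 →
      Submodule.span ℂ {v | ∃ w ∈ Lifts U z fun j => io (s j), MvPolynomial.eval w N₀ ≠ 0 ∧ v = rat N₀ N w} = ⊤ →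
      s ∉ Exceptional U z k K io N₀ N T → ∀ L : Matrix ι ι (𝓞 K), (∀ i j, house (L i j : K) ≤ T ^ k) →
      rat N₀ N (z fun j => io (s j)) ∈ subspace K io L → subspace K io L = Set.univ :=
  ⟨fun k ε hε => hs_fix h k ε hε, hs_grow h, fun _ _ _ _ _ _ _ _ _ hs hs' h0 hspan hexc L hL hmem =>
    hs_span hs hs' h0 hspan hexc L hL hmem⟩

end Pool.Agent.Results.MP_1e27bd_ag.AllShimuraVarieties
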