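import Pool.Agent.U536.CF.Boxes
import Pool.Agent.Results.MP_1e27bd_ag.AlmostAllInvariants

/-!
# The hyperbolic analytic subspace conjecture for products of modular curves at points isogenous to points with
invariants near multiples of integers with large common factors with the values of multiplicative functions

Let `S = Y(1)^n`, let `o` be a special point and `c` any numbers (the ratios of the two structures). Let `F_1, …, F_k`
be positive multiplicative functions of at most polynomial growth with `F_i(p) ≤ M p` for the large primes `p`, with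
different values at different large primes; for example Euler's function or the sum of the divisors. For all `n`, `k ≥
1`, `D` there are `η > 0` and `ρ < 1` such that for all such `F_i`, all `b < 1` and `0 ≤ c < 2 b - 1`, all large `N`
(how large does not depend on `o`, `c`, `K`) and all number fields `K` of degree at most `D` the following holds for all
but `N ^ k exp (-(log N)^c)` of the `k`-tuples `m` of positive integers `≤ N`. For EVERY tuple `w` of integers `w_i ≥
exp ((log N)^b)` such that `gcd(w_i, F_i(m_i)) ≥ w_j^ρ` for all `i`, `j`, and for ALL integers `a_i ≠ 0` and `h_i` which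
are bounded in absolute value by `w_l ^ η` for some `l`, the following holds for the integers `t_i = a_i w_i + h_i` and
ALL points `z` of `X = ℍ^n` whose coordinates are isogenous, by arbitrary isogenies, to points with the invariants `t_1,
…, t_k` (each coordinate to one of them): every subspace `V` which is rational over `K` for the arithmetic structure and
contains `z` contains the tangent space `Tangent o z` of the Shimura subvariety through `[o]` and `[z]`. This space
contains `z` and is rational for both structures. There is no bound for the degrees of the isogenies or for the height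
of `V`. The tuples `w` include all tuples of large divisors `w_i` of the `F_i(m_i)` of comparable size.

Proof. But for few exceptional `m ≤ N`, the number of `m` with `g ∣ F(m)` is at most `N τ_J(g) / g` up to a factor `exp
((log N)^s)`, `J = (log N)^a`, `a < s < b`, for all `g`: write `m = k' u` with `u` squarefree and composed of primes
larger than `N^(1/J)`, `k' ≤ exp (4 (log N)^a)`. The tuples near exceptional tuples have a power saving, and so have the
tuples of the large divisors of their coordinates; the inequality `τ_J^q ≤ τ_K` for `K ≥ J^q` with Hölder's inequality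
for tuples bounds the sum of `∏ τ_J(g_i) / g_i` over these. The file `AlmostAllInvariants` of the starting library
counts the exceptional tuples of integers in boxes.
-/

set_option autoImplicit false

namespace Pool.Agent.Results.MP_1e27bd_ag.CommonFactors

open Pool.Agent.N733.TG (LM lm_totient lm_sigma)
open Pool.Agent.U536.CF (CommonT common_near commonT_of_dvd cube_of_boxes)
open Pool.Agent.Results.MP_1e27bd_ag.ModularProducts
open Pool.Agent.Results.MP_1e27bd_ag.AlmostAllInvariants (Exceptional)

/-- **The hyperbolic analytic subspace conjecture for products of modular curves at points isogenous to points with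
invariants near multiples of integers with large common factors with the values of multiplicative functions.** The space
`Tangent o τ` contains `point o τ` and is rational for both structures. For all `n`, `k ≥ 1`, `D` there are `η > 0` and
`ρ < 1` such that for all `F_1, …, F_k` which are LM, all `b < 1` and `0 ≤ c < 2 b - 1` there is `N₀` such that for all
`N ≥ N₀`, all special points `o`, all numbers `c` and all number fields `K` of degree at most `D`: for all but at most
`N ^ k exp (-(log N)^c)` of the tuples `m` of positive integers `≤ N`, for EVERY tuple `w` of integers `w_i ≥ exp ((log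
N)^b)` with `gcd(w_i, F_i(m_i)) ≥ w_j^ρ` for all `i`, `j`, and for all integers `a_i ≠ 0`, `h_i` with `|a_i|, |h_i| ≤
w_l ^ η` (for some `l` which does not depend on `i`) the tuple `(a_i w_i + h_i)` is not exceptional: every subspace
which is rational over `K` for the arithmetic structure and contains `point o τ`, where each coordinate of `τ` is
isogenous to one of the points `v_i` with the invariants `a_i w_i + h_i`, contains `Tangent o τ`. Euler's function and
the sum of the divisors are LM. Tuples of divisors `w_i ≥ exp ((log N)^b)` of `F_i(m_i)` with `w_j^ρ ≤ w_i` are such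
tuples `w`. -/
theorem result (n k D : ℕ) (hk : 1 ≤ k) :
    (∀ o τ c : Fin n → ℂ, (∀ i, Special (o i)) → (∀ i, 0 < (τ i).im) → (∀ i, c i ≠ 0) → Compatible o c →
      point o τ ∈ Tangent o τ ∧ Rational Qbar c (Tangent o τ) ∧ Rational Qbar (fun _ => 1) (Tangent o τ)) ∧
    (∃ η ρ : ℝ, 0 < η ∧ 0 < ρ ∧ ρ < 1 ∧ ∀ F : Fin k → ℕ → ℕ, (∀ i, LM (F i)) →
      ∀ b c₁ : ℝ, b < 1 → 0 ≤ c₁ → c₁ < 2 * b - 1 → ∃ N₀ : ℕ, ∀ N : ℕ, N₀ ≤ N →
      ∀ o c : Fin n → ℂ, (∀ i, Special (o i)) →
      ∀ K : IntermediateField ℚ ℂ, FiniteDimensional ℚ K → Module.finrank ℚ K ≤ D →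
      ({m : Fin k → ℕ | (∀ i, 1 ≤ m i ∧ m i ≤ N) ∧ ¬ ∀ w : Fin k → ℕ, CommonT F b ρ N m w →
        ∀ a h : Fin k → ℤ, (∃ l, ∀ i, a i ≠ 0 ∧ |(a i : ℝ)| ≤ (w l : ℝ) ^ η ∧ |(h i : ℝ)| ≤ (w l : ℝ) ^ η) →
        ¬ Exceptional (K : Set ℂ) o c (fun i => a i * (w i : ℤ) + h i)}.ncard : ℝ) ≤
        (N : ℝ) ^ k * Real.exp (-(Real.log N ^ c₁))) ∧
    (LM Nat.totient ∧ LM (fun m => ∑ d ∈ m.divisors, d)) ∧
    ∀ (F : Fin k → ℕ → ℕ) (b ρ : ℝ) (N : ℕ) (m w : Fin k → ℕ), (∀ i, Real.exp (Real.log N ^ b) ≤ (w i : ℝ)) →
      (∀ i, w i ∣ F i (m i)) → (∀ i j, (w j : ℝ) ^ ρ ≤ (w i : ℝ)) → CommonT F b ρ N m w := by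
  refine ⟨(AlmostAllInvariants.result n k D).1, ?_, ⟨lm_totient, lm_sigma⟩, fun F b ρ N m w h1 h2 h3 => commonT_of_dvd h1 h2 h3⟩
  obtain ⟨e, C, he, hC, hcount⟩ := (AlmostAllInvariants.result n k D).2
  obtain ⟨η, ρ, hη, hρ0, hρ1, hkeep⟩ := common_near hk (c := min e 1) (lt_min he one_pos)
  refine ⟨η, ρ, hη, hρ0, hρ1, fun F hF b c₁ hb hc₁ hcb => ?_⟩
  obtain ⟨N₀, hN₀⟩ := hkeep F hF (k * 3 ^ (k - 1) + C * (k * 2)) b c₁ hb hc₁ hcb
  refine ⟨N₀, fun N hN o c ho K hK hKD => ?_⟩
  exact hN₀ N hN {α : Fin k → ℤ | Exceptional (K : Set ℂ) o c α}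
    (fun T hT => cube_of_boxes hk hC (fun x N hN S hS => hcount o c ho K hK hKD x N hN S hS) T hT)

end Pool.Agent.Results.MP_1e27bd_ag.CommonFactors
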