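import Pool.Agent.U536.CF.Boxes
import Pool.Agent.U536.DS.TN
import Pool.Agent.Results.MP_1e27bd_ag.AlmostAllInvariants

/-!
# The hyperbolic analytic subspace conjecture for products of modular curves at points isogenous to points with
invariants near multiples of integral combinations of two divisors of the values of multiplicative functions

Let `S = Y(1)^n`, let `o` be a special point and `c` any numbers (the ratios of the two structures). Let `F_1, …, F_k`
be positive multiplicative functions of at most polynomial growth with `F_i(p) ≤ M p` for the large primes `p`, with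
different values at different large primes; for example Euler's function or the sum of the divisors. For all `n`, `k ≥
1`, `D` there are `η > 0` and `ρ < 1` such that for all such `F_i`, all `b < 1`, `μ < b` and `0 ≤ c < 2 b - 1`, all
large `N` (how large does not depend on `o`, `c`, `K`) and all number fields `K` of degree at most `D` the following
holds for all but `N ^ k exp (-(log N)^c)` of the `k`-tuples `m` of positive integers `≤ N`. For EVERY tuple `w` of
integers `w_i ≥ exp ((log N)^b)` of the form `w_i = y d + z d'` with divisors `d`, `d'` of `F_i(m_i)` and integers `|y|,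
|z| ≤ exp ((log N)^μ)` (depending on `i`) such that `w_i ≥ w_j^ρ` for all `i`, `j`, and for ALL integers `a_i ≠ 0` and
`h_i` which are bounded in absolute value by `w_l ^ η` for some `l`, the following holds for the integers `t_i = a_i w_i
+ h_i` and ALL points `z` of `X = ℍ^n` whose coordinates are isogenous, by arbitrary isogenies, to points with the
invariants `t_1, …, t_k` (each coordinate to one of them): every subspace `V` which is rational over `K` for the
arithmetic structure and contains `z` contains the tangent space `Tangent o z` of the Shimura subvariety through `[o]`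
and `[z]`. This space contains `z` and is rational for both structures. There is no bound for the degrees of the
isogenies or for the height of `V`. The tuples `w` include all tuples of comparable size of large sums and differences
`w_i` of ANY two divisors of the `F_i(m_i)`.

Proof. But for few exceptional `m ≤ N`, the number of `m` with `g ∣ F(m)` is at most `N τ_J(g) / g` up to a factor `exp
((log N)^s)`, `J = (log N)^a`, `a < s < b`, for all `g`: write `m = k' v` with `v` squarefree and composed of primes
larger than `N^(1/J)`, `k' ≤ exp (4 (log N)^a)`. Take for `g` the least common multiples of the pairs `(d, d')`: the sum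
of `1 / [d, d']` over the pairs `d, d' ≤ X` with `y d + z d' = w` is at most `4 U (1 + log X) τ(w) / w` if `|y|, |z| ≤
U`; the tuples near exceptional tuples are few, and the inequality `τ_J^q ≤ τ_K` for `K ≥ J^q` with Hölder's inequality
for tuples bounds the sum. The tuples of the hand-in `CommonFactors` of this page have large common factors with the
`F_i(m_i)`; the sums and differences of two divisors of `F_i(m_i)` have in general none. The file `AlmostAllInvariants`
of the starting library counts the exceptional tuples of integers in boxes.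
-/

set_option autoImplicit false

namespace Pool.Agent.Results.MP_1e27bd_ag.DivisorSums

open Pool.Agent.N733.TG (LM lm_totient lm_sigma)
open Pool.Agent.U536.CF (cube_of_boxes)
open Pool.Agent.U536.DS (CombT comb_near combT_pm)
open Pool.Agent.Results.MP_1e27bd_ag.ModularProducts
open Pool.Agent.Results.MP_1e27bd_ag.AlmostAllInvariants (Exceptional)

/-- **The hyperbolic analytic subspace conjecture for products of modular curves at points isogenous to points with
invariants near multiples of integral combinations of two divisors of the values of multiplicative functions.** The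
space `Tangent o τ` contains `point o τ` and is rational for both structures. For all `n`, `k ≥ 1`, `D` there are `η >
0` and `ρ < 1` such that for all `F_1, …, F_k` which are LM, all `b < 1`, `μ < b` and `0 ≤ c < 2 b - 1` there is `N₀`
such that for all `N ≥ N₀`, all special points `o`, all numbers `c` and all number fields `K` of degree at most `D`: for
all but at most `N ^ k exp (-(log N)^c)` of the tuples `m` of positive integers `≤ N`, for EVERY tuple `w` of integers
`w_i ≥ exp ((log N)^b)` of the form `w_i = y d + z d'` with divisors `d`, `d'` of `F_i(m_i)` and integers `|y|, |z| ≤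
exp ((log N)^μ)`, with `w_i ≥ w_j^ρ` for all `i`, `j`, and for all integers `a_i ≠ 0`, `h_i` with `|a_i|, |h_i| ≤ w_l ^
η` (for some `l` which does not depend on `i`) the tuple `(a_i w_i + h_i)` is not exceptional: every subspace which is
rational over `K` for the arithmetic structure and contains `point o τ`, where each coordinate of `τ` is isogenous to
one of the points `v_i` with the invariants `a_i w_i + h_i`, contains `Tangent o τ`. Euler's function and the sum of the
divisors are LM. Tuples of sums and differences `w_i ≥ exp ((log N)^b)` of two divisors of `F_i(m_i)` with `w_j^ρ ≤ w_i`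
are such tuples `w`. -/
theorem result (n k D : ℕ) (hk : 1 ≤ k) :
    (∀ o τ c : Fin n → ℂ, (∀ i, Special (o i)) → (∀ i, 0 < (τ i).im) → (∀ i, c i ≠ 0) → Compatible o c →
      point o τ ∈ Tangent o τ ∧ Rational Qbar c (Tangent o τ) ∧ Rational Qbar (fun _ => 1) (Tangent o τ)) ∧
    (∃ η ρ : ℝ, 0 < η ∧ 0 < ρ ∧ ρ < 1 ∧ ∀ F : Fin k → ℕ → ℕ, (∀ i, LM (F i)) →
      ∀ b μ c₁ : ℝ, μ < b → b < 1 → 0 ≤ c₁ → c₁ < 2 * b - 1 → ∃ N₀ : ℕ, ∀ N : ℕ, N₀ ≤ N →
      ∀ o c : Fin n → ℂ, (∀ i, Special (o i)) →
      ∀ K : IntermediateField ℚ ℂ, FiniteDimensional ℚ K → Module.finrank ℚ K ≤ D →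
      ({m : Fin k → ℕ | (∀ i, 1 ≤ m i ∧ m i ≤ N) ∧ ¬ ∀ w : Fin k → ℕ, CombT F b μ ρ N m w →
        ∀ a h : Fin k → ℤ, (∃ l, ∀ i, a i ≠ 0 ∧ |(a i : ℝ)| ≤ (w l : ℝ) ^ η ∧ |(h i : ℝ)| ≤ (w l : ℝ) ^ η) →
        ¬ Exceptional (K : Set ℂ) o c (fun i => a i * (w i : ℤ) + h i)}.ncard : ℝ) ≤
        (N : ℝ) ^ k * Real.exp (-(Real.log N ^ c₁))) ∧
    (LM Nat.totient ∧ LM (fun m => ∑ d ∈ m.divisors, d)) ∧
    ∀ (F : Fin k → ℕ → ℕ) (b μ ρ : ℝ) (N : ℕ) (m w : Fin k → ℕ), (∀ i, Real.exp (Real.log N ^ b) ≤ (w i : ℝ)) →
      (∀ i, ∃ d d' : ℕ, d ∣ F i (m i) ∧ d' ∣ F i (m i) ∧ (w i = d + d' ∨ w i = d - d' ∨ w i = d)) →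
      (∀ i j, (w j : ℝ) ^ ρ ≤ (w i : ℝ)) → CombT F b μ ρ N m w := by
  refine ⟨(AlmostAllInvariants.result n k D).1, ?_, ⟨lm_totient, lm_sigma⟩, fun F b μ ρ N m w h1 h2 h3 => combT_pm h1 h2 h3⟩
  obtain ⟨e, C, he, hC, hcount⟩ := (AlmostAllInvariants.result n k D).2
  obtain ⟨η, ρ, hη, hρ0, hρ1, hkeep⟩ := comb_near hk (c := min e 1) (lt_min he one_pos)
  refine ⟨η, ρ, hη, hρ0, hρ1, fun F hF b μ c₁ hμ hb hc₁ hcb => ?_⟩
  obtain ⟨N₀, hN₀⟩ := hkeep F hF (k * 3 ^ (k - 1) + C * (k * 2)) μ b c₁ hμ hb hc₁ hcb
  refine ⟨N₀, fun N hN o c ho K hK hKD => ?_⟩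
  exact hN₀ N hN {α : Fin k → ℤ | Exceptional (K : Set ℂ) o c α}
    (fun T hT => cube_of_boxes hk hC (fun x N hN S hS => hcount o c ho K hK hKD x N hN S hS) T hT)

end Pool.Agent.Results.MP_1e27bd_ag.DivisorSums
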