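import Pool.Agent.U449.BV.R
import Pool.Agent.Results.MP_1e27bd_ag.AlmostAllInvariants

/-!
# The hyperbolic analytic subspace conjecture: invariants near the values of polynomials on arbitrary thin sets

For all `n`, `k ≥ 1`, `D` there is `c > 0` such that the following holds for `κ ≥ 0`, `k - c + k κ < δ ≤ k`. Let `p` be a large prime,
`f(x, y)` ANY polynomial of bounded degree over the field of `p ^ k` elements with a monomial which contains both variables (for
example `f = x y`), let `A`, `B` be ARBITRARY subsets of this field with at least `p ^ δ` elements, and `g`, `h` ARBITRARY functions.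
For all the pairs `(a, b)` in `A × B`, apart from a proportion of at most `p ^ (-ρ)`, and for ALL tuples `t` of nonzero integers at a
distance of at most `p ^ κ` from the tuple of the least residues of the `k` coordinates of `f(a, b) + g(a) + h(b)`: if the coordinates of
the point `τ` of `ℍ ^ n` are isogenous to points with the invariants `t_1, …, t_k`, then each subspace which is rational over `K` for the
arithmetic structure at the special point `o` and contains `point o τ` contains the tangent space of the Shimura
subvariety through the two points. This is uniform in the special point `o`, the periods `c` and the number field `K` of degree at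
most `D`. More generally, it holds for the values `F(a, b)` of all vector functions of two variables with few
coincidences (`RareV`), on arbitrary finite sets.

Since the sets and the functions `g` and `h` are arbitrary, the vectors have no arithmetic structure, and a vector may be
taken by very many pairs. So the number of the exceptions (starting library) does not give the result directly. Proof: the
inequality of Cauchy and Schwarz; for most pairs `a, a'` the difference `F(a, b) - F(a', b)` is small for few `b`
(`Pool.Agent.U449.BV`).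
-/

set_option autoImplicit false

namespace Pool.Agent.Results.MP_1e27bd_ag.MixedPolynomials

open Finset
open Pool.Agent.U449.BV (RareV OnProductsU on_products_int_saving coordinates)
open Pool.Agent.Results.MP_1e27bd_ag.ModularProducts
open Pool.Agent.Results.MP_1e27bd_ag.AlmostAllInvariants (Exceptional)

/-- The special points `o` of `ℍ ^ n`, with `c : Fin n → ℂ` and a number field `K` of degree at most `D`. -/
abbrev Data (n D : ℕ) : Type :=
  {ω : (Fin n → ℂ) × (Fin n → ℂ) × IntermediateField ℚ ℂ // (∀ i, Special (ω.1 i)) ∧ FiniteDimensional ℚ ω.2.2 ∧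
    Module.finrank ℚ ω.2.2 ≤ D}

/-- ALL tuples `t` of nonzero integers with `|t_i - x_i| ≤ W` for all `i` are not exceptional. -/
def Near {n D : ℕ} (k : ℕ) (ω : Data n D) (W : ℝ) (x : Fin k → ℝ) : Prop :=
  ∀ t : Fin k → ℤ, (∀ i, t i ≠ 0) → (∀ i, |(t i : ℝ) - x i| ≤ W) → ¬ Exceptional (ω.1.2.2 : Set ℂ) ω.1.1 ω.1.2.1 t

/-- **Theorem.** For all `n`, `k ≥ 1`, `D` there is `c > 0` such that for all `κ ≥ 0` the property `Near`, with windows of length
`X ^ κ`, holds, uniformly in the special point, the numbers `c` and the number field `K` of degree at most `D`, for almost all values of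
vector functions of two variables with few coincidences, on arbitrary finite sets of at least `X ^ δ` elements,
`k - c + k κ < δ ≤ k` (`OnProductsU`).
The tuples of the least residues modulo `p` of the coordinates (with respect to a basis over the field of `p` elements) of
`f(a, b) + g(a) + h(b)` in a field of `p ^ k` elements are such a function, with `X = p`, for all polynomials `f` over this
field with a monomial which contains both variables, arbitrary functions `g` and `h`, and arbitrary finite subsets. -/
theorem result :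
    (∀ n k D : ℕ, 1 ≤ k → ∃ c : ℝ, 0 < c ∧ ∀ κ : ℝ, 0 ≤ κ → OnProductsU k ((k : ℝ) - c + k * κ) κ
      (fun ω : Data n D => Near k ω)) ∧
    ∀ (p : ℕ) [Fact p.Prime] (k : ℕ) (K : Type) [Field K] [Algebra (ZMod p) K] (e : Module.Basis (Fin k) (ZMod p) K)
      (d : ℕ) (f : MvPolynomial (Fin 2) K), f.totalDegree ≤ d → (∃ m ∈ f.support, m 0 ≠ 0 ∧ m 1 ≠ 0) →
      ∀ (g h : K → K) (A B : Finset K),
        RareV d A B (fun a b i => (((e.repr (MvPolynomial.eval ![a, b] f + g a + h b) i).val : ℕ) : ℝ)) := by
  classical
  refine ⟨fun n k D hk => ?_, coordinates⟩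
  obtain ⟨c, C, hc, hC, hcount⟩ := (AlmostAllInvariants.result n k D).2
  have hk1 : (1 : ℝ) ≤ k := by exact_mod_cast hk
  obtain ⟨c', hc'⟩ : ∃ c' : ℝ, c' = min c 1 := ⟨_, rfl⟩
  have hc'0 : 0 < c' := by rw [hc']; exact lt_min hc one_pos
  have hc'c : c' ≤ c := by rw [hc']; exact min_le_left _ _
  have hc'1 : c' ≤ 1 := by rw [hc']; exact min_le_right _ _
  refine ⟨c', hc'0, fun κ hκ => ?_⟩
  have h9 := on_products_int_saving (k := k) (Ω := Data n D)
    (fun ω => {t : Fin k → ℤ | (∀ i, t i ≠ 0) ∧ Exceptional (ω.1.2.2 : Set ℂ) ω.1.1 ω.1.2.1 t}) (c := c') (C := C * (k * 2)) hκ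
    (fun ω X hX => ?_)
  · rw [min_eq_left (hc'1.trans hk1)] at h9
    exact h9.mono id (fun ω W x _ h' t ht0 ht hE => h' t ht ⟨ht0, hE⟩)
  · obtain ⟨⟨o, c₀, K⟩, hω1, hω2, hω3⟩ := ω
    dsimp only at hω1 hω2 hω3 ⊢
    have hX1 : (1 : ℝ) ≤ X := by exact_mod_cast hX
    have hX0 : (0 : ℝ) < X := by linarith
    have hfin : {w : Fin k → ℤ | (∀ i, |w i| ≤ (X : ℤ)) ∧ w ∈ {t : Fin k → ℤ | (∀ i, t i ≠ 0) ∧
        Exceptional (K : Set ℂ) o c₀ t}}.Finite := by
      apply (Set.Finite.pi' fun _ : Fin k => Set.finite_Icc (-(X : ℤ)) X).subset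
      intro m hm i
      exact abs_le.1 (hm.1 i)
    have h1 := hcount o c₀ hω1 K hω2 hω3 (fun _ => 0) X hX hfin.toFinset (by
      intro t ht
      rw [Set.Finite.mem_toFinset] at ht
      refine ⟨fun i => ⟨?_, ?_⟩, ht.2.2⟩
      · simpa using ht.2.1 i
      · simpa using ht.1 i)
    rw [← Set.ncard_eq_toFinset_card _ hfin] at h1
    refine h1.trans ?_
    have h2 : ∀ i : Fin k, (1 + (X : ℝ) / (((0 : ℕ) : ℝ) + X) ^ c) ≤ 2 * (X : ℝ) ^ (1 - c') := by
      intro i
      have h3 : (1 : ℝ) ≤ (X : ℝ) ^ (1 - c') := Real.one_le_rpow hX1 (by linarith)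
      have h4 : (X : ℝ) / (((0 : ℕ) : ℝ) + X) ^ c ≤ (X : ℝ) ^ (1 - c') := by
        rw [Nat.cast_zero, zero_add]
        calc (X : ℝ) / (X : ℝ) ^ c = (X : ℝ) ^ (1 - c) := by
              rw [Real.rpow_sub hX0, Real.rpow_one]
          _ ≤ _ := Real.rpow_le_rpow_of_exponent_le hX1 (by linarith)
      linarith
    have h5 : (∑ _i : Fin k, (1 + (X : ℝ) / (((0 : ℕ) : ℝ) + X) ^ c)) ≤ k * (2 * (X : ℝ) ^ (1 - c')) := by
      refine (Finset.sum_le_sum fun i _ => h2 i).trans ?_
      rw [Finset.sum_const, Finset.card_univ, Fintype.card_fin, nsmul_eq_mul]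
    calc C * (X : ℝ) ^ (k - 1) * ∑ _i : Fin k, (1 + (X : ℝ) / (((0 : ℕ) : ℝ) + X) ^ c)
        ≤ C * (X : ℝ) ^ (k - 1) * (k * (2 * (X : ℝ) ^ (1 - c'))) := by gcongr
      _ = C * (k * 2) * ((X : ℝ) ^ ((k : ℝ) - 1) * (X : ℝ) ^ (1 - c')) := by
          rw [← Real.rpow_natCast (X : ℝ) (k - 1), Nat.cast_sub hk, Nat.cast_one]
          ring
      _ = C * (k * 2) * (X : ℝ) ^ ((k : ℝ) - c') := by
          rw [← Real.rpow_add hX0]
          congr 2
          ring

end Pool.Agent.Results.MP_1e27bd_ag.MixedPolynomials
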